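import Pool.Agent.Helper89_THS.Fin2
import Pool.Agent.Helper90_THS.BDG

namespace Pool.Agent.THS.H89

open Pool.Agent.THS

theorem final : ThsStatement := fin2 (H90.bdg H41.prb)

end Pool.Agent.THS.H89
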