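import Pool.Agent.Helper89_THS.Fin1
import Pool.Agent.Helper56_THS.PIS
import Pool.Agent.Helper86_THS.LIN
import Pool.Agent.Helper2_THS.KMO
import Pool.Agent.Helper64_THS.LGR
import Pool.Agent.Helper43_THS.FPE
import Pool.Agent.Helper17_THS.FBD
import Pool.Agent.Helper60_THS.DBD
import Pool.Agent.Helper49_THS.MNN
import Pool.Agent.Helper49_THS.FTP
import Pool.Agent.Helper10_THS.DPF
import Pool.Agent.Helper49_THS.MNV
import Pool.Agent.Helper65_THS.EVB
import Pool.Agent.Helper66_THS.TOT
import Pool.Agent.Helper16_THS.ROU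
import Pool.Agent.Helper49_THS.PER
import Pool.Agent.Helper44_THS.OUA
import Pool.Agent.Helper27_THS.SHM
import Pool.Agent.Helper75_THS.TSC
import Pool.Agent.Helper92_THS.LES
import Pool.Agent.Helper41_THS.GEO
import Pool.Agent.Helper26_THS.MXV
import Pool.Agent.Helper70_THS.NRA
import Pool.Agent.Helper98_THS.NRB
import Pool.Agent.Helper41_THS.LCF

namespace Pool.Agent.THS.H89

open Pool.Agent.THS

theorem fin2 (hBDG : BdgStatement) : ThsStatement := by
  have hORT : OrtStatement := H70.ort
  have hRQI : RqiStatement := H62.rqi hORT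
  have hFBD : FbdStatement := H17.fbd (H49.lar hORT) (H25.lna hORT) hBDG
  have hDPF : DpfStatement := H10.dpfF H6.hfs
  have hSHM : ShmStatement := H27.shm
  have hTSC : TscStatement := H75.tsc hSHM
  have hLES : LesStatement := Pool.Agent.Helper92_THS.les hSHM hTSC
  have hNRA : NraStatement := H70.nra hRQI
  have hNRB : NrbStatement := H98.nrb hRQI H26.mxv
  have hLOC : LocStatement := H41.lcf hNRA hNRB hLES (H41.geo hSHM) hSHM
  have hMNV : MnvStatement := H49.mnv hLOC hFBD H60.dbd H49.mnn H49.qvr hDPF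
  have hPER : PerStatement := H49.per H65.evb (H16.rou H66.tot)
  have hALG : AlgStatement := H44.oua H64.lgr H43.fpe hMNV hPER H49.ftp
  exact fin1 H56.pis H86.lin H2.kmo hALG

end Pool.Agent.THS.H89
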