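import Pool.Agent.THS.StmtsZ

namespace Pool.Agent.THS.H89

open Pool.Agent.THS

open scoped BigOperators

theorem lN_nonneg {K : Type} [Field K] [NumberField K] (v : NumberField.FinitePlace K) :
    0 ≤ lN v := by
  unfold lN
  apply Real.log_nonneg
  have h : v.maximalIdeal.asIdeal.absNorm ≠ 0 := by
    rw [Ne, Ideal.absNorm_eq_zero_iff]
    exact v.maximalIdeal.ne_bot
  exact_mod_cast Nat.one_le_iff_ne_zero.2 h

theorem asm (hALG : AlgStatement) (hTHD : ThdStatement) (hRED : RedStatement)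
    (hHTZ : HtzStatement) (hPIG : PigStatement) (hPRP : PrpStatement) : AsmStatement := by
  intro g d c σ hc
  obtain ⟨B1, S0, hA⟩ := hALG g d (max σ 0) (g * d * Real.log 2) (le_max_right _ _)
    (by positivity)
  obtain ⟨B2, hP⟩ := hPIG g d (Real.exp (max σ 0 * S0))
  refine ⟨c * max B1 B2, ?_⟩
  intro K _ _ hd φ τ hτ z hz x hx hV S hS2 hSc hH
  obtain ⟨N, hN, p, q, hpq⟩ := hz
  have hz' : ∀ i, (N : ℂ) * ((c : ℂ) * z i)
      = (((c : ℤ) * p i : ℤ) : ℂ) + ∑ j, τ i j * (((c : ℤ) * q j : ℤ) : ℂ) := by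
    intro i
    have h := hpq i
    have h2 : ∑ j, τ i j * (((c : ℤ) * q j : ℤ) : ℂ) = (c : ℂ) * ∑ j, τ i j * (q j : ℂ) := by
      rw [Finset.mul_sum]
      refine Finset.sum_congr rfl fun j _ => ?_
      push_cast
      ring
    rw [h2]
    push_cast
    have h' : (N : ℂ) * z i = (p i : ℂ) + ∑ j, τ i j * (q j : ℂ) := h
    calc (N : ℂ) * ((c : ℂ) * z i) = c * ((N : ℂ) * z i) := by ring
      _ = _ := by rw [h']; ring
  obtain ⟨α, β, T, hT, hlast⟩ := hTHD g K φ τ hτ (fun i => (c : ℂ) * z i) N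
    (fun i => (c : ℤ) * p i) (fun i => (c : ℤ) * q i) hN hz' (fun k => x (c * k))
    (fun k => hx _) (by
      intro k
      obtain ⟨μ, hμ⟩ := hV (c * k)
      refine ⟨μ, fun ab => ?_⟩
      rw [hμ ab]
      congr 2
      funext i
      push_cast
      ring)
  have hred : ∀ v ∈ S, ∀ k, PC v.val (T k) (T 0) := by
    intro v hv
    refine hRED K v.val g N α β T (fun k => x (c * k)) ?_ (hS2 v hv) hT.toNSeq ?_
    · intro a b
      exact NumberField.FinitePlace.add_le v a b
    · intro k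
      have := hSc v hv k
      simpa using this
  have hS0 : 0 ≤ ∑ v ∈ S, lN v := Finset.sum_nonneg fun v _ => lN_nonneg v
  have hx0pos : 1 ≤ Height.mulHeight (x 0) := Height.one_le_mulHeight _
  have hHT : Real.log (Height.mulHeight (T 0)) ≤ max σ 0 * ∑ v ∈ S, lN v + g * d * Real.log 2 := by
    have h1 := hHTZ K g N α β T (fun k => x (c * k)) hT.toNSeq
    have hT0 : 1 ≤ Height.mulHeight (T 0) := Height.one_le_mulHeight _
    have h2 := Real.log_le_log (by positivity) h1
    rw [Real.log_mul (by positivity) (by simp; positivity), Real.log_pow, Real.log_pow, Real.log_pow] at h2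
    have h3 : (fun k => x (c * k)) 0 = x 0 := by simp
    simp only [mul_zero] at h2
    have h4 : ((g * Module.finrank ℚ K : ℕ) : ℝ) * Real.log 2 ≤ 2 * (g * d * Real.log 2) := by
      have hl : 0 ≤ Real.log 2 := Real.log_nonneg (by norm_num)
      have h5 : ((g * Module.finrank ℚ K : ℕ) : ℝ) ≤ g * d := by
        push_cast
        have : (Module.finrank ℚ K : ℝ) ≤ d := by exact_mod_cast hd
        exact mul_le_mul_of_nonneg_left this (by positivity)
      have h6 : (0 : ℝ) ≤ g * d * Real.log 2 := by positivity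
      nlinarith [mul_le_mul_of_nonneg_right h5 hl]
    have h5 : σ * ∑ v ∈ S, lN v ≤ max σ 0 * ∑ v ∈ S, lN v :=
      mul_le_mul_of_nonneg_right (le_max_left _ _) hS0
    push_cast at h2 h4
    linarith
  have key : ∃ M : ℕ, 1 ≤ M ∧ M ≤ max B1 B2 ∧ ∃ r : K, ∀ c, T M c = r * T 0 c := by
    rcases hA K hd N α β T _ hT S hS2 hred hHT with h | ⟨M, h1, h2, h3⟩
    · have hH0 : Height.mulHeight ((fun k => x (c * k)) 0) ≤ Real.exp (max σ 0 * S0) := by
        have h3 : (fun k => x (c * k)) 0 = x 0 := by simp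
        rw [h3, ← Real.log_le_iff_le_exp (by linarith)]
        refine hH.trans ?_
        have h5 : σ * ∑ v ∈ S, lN v ≤ max σ 0 * ∑ v ∈ S, lN v :=
          mul_le_mul_of_nonneg_right (le_max_left _ _) hS0
        exact h5.trans (mul_le_mul_of_nonneg_left h (le_max_right _ _))
      obtain ⟨i, j, hij, hj, l, -, hl⟩ := hP K hd N α β T _ hT.toNSeq hH0
      refine ⟨j - i, by omega, (by omega : j - i ≤ B2).trans (le_max_right _ _), ?_⟩
      obtain ⟨r, hr⟩ := hPRP K g N α β T _ hT.toNSeq (i : ℤ) (j : ℤ) l hl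
      refine ⟨r, fun c => ?_⟩
      rw [Nat.cast_sub hij.le]
      exact hr c
    · exact ⟨M, h1, h2.trans (le_max_left _ _), h3⟩
  obtain ⟨M, h1, h2, r, hr⟩ := key
  obtain ⟨p', q', hp'⟩ := hlast M r hr
  refine ⟨c * M, Nat.mul_pos hc h1, Nat.mul_le_mul_left c h2, p', q', fun i => ?_⟩
  rw [← hp' i]
  push_cast
  ring

end Pool.Agent.THS.H89
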