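import Pool.Agent.Helper89_THS.ASM
import Pool.Agent.THS.StmtsB
import Pool.Agent.Helper77_THS.COE
import Pool.Agent.Helper27_THS.GSO
import Pool.Agent.Helper92_THS.TBD
import Pool.Agent.Helper21_THS.TLD
import Pool.Agent.Helper65_THS.TPE
import Pool.Agent.Helper90_THS.BIJ
import Pool.Agent.Helper53_THS.PRD
import Pool.Agent.Helper62_THS.RRE
import Pool.Agent.Helper70_THS.ORT
import Pool.Agent.Helper62_THS.INV
import Pool.Agent.Helper49_THS.TCP
import Pool.Agent.Helper53_THS.GRD
import Pool.Agent.Helper16_THS.TNV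
import Pool.Agent.Helper10_THS.LPR
import Pool.Agent.Helper87_THS.TCN
import Pool.Agent.Helper91_THS.SQM
import Pool.Agent.Helper44_THS.KLA
import Pool.Agent.Helper60_THS.TOU
import Pool.Agent.Helper6_THS.HFS
import Pool.Agent.Helper77_THS.HCP
import Pool.Agent.Helper49_THS.NUF
import Pool.Agent.Helper27_THS.NPP
import Pool.Agent.Helper49_THS.LAR
import Pool.Agent.Helper25_THS.LNA
import Pool.Agent.Helper41_THS.PRB
import Pool.Agent.Helper92_THS.HTK
import Pool.Agent.Helper41_THS.HXK
import Pool.Agent.Helper49_THS.HXB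
import Pool.Agent.Helper62_THS.PIG
import Pool.Agent.Helper16_THS.PCE
import Pool.Agent.Helper91_THS.PCT
import Pool.Agent.Helper44_THS.FOI
import Pool.Agent.Helper41_THS.RED
import Pool.Agent.Helper62_THS.RQI
import Pool.Agent.Helper33_THS.SCA
import Pool.Agent.Helper21_THS.PXV
import Pool.Agent.Helper94_THS.SPE
import Pool.Agent.Helper65_THS.NSD
import Pool.Agent.Helper44_THS.THD
import Pool.Agent.Helper42_THS.PRP

namespace Pool.Agent.THS.H89

open Pool.Agent.THS

theorem fin1 (hPIS : PisStatement) (hLIN : LinStatement)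
    (hKMO : PrdStatement → TpeStatement → TldStatement → TnvStatement → TcnStatement →
      SqmStatement → LinStatement → KmoStatement) (hALG : AlgStatement) : ThsStatement := by
  have hTBD : TbdStatement := Pool.Agent.Helper92_THS.tbd H77.coe H27.gso hPIS
  have hTLD : TldStatement := H21.tld hTBD
  have hTPE : TpeStatement := H65.tpe
  have hPRD : PrdStatement := H53.prd hTBD H90.bij
  have hRRE : RreStatement := H62.rre hPRD hTPE
  have hORT : OrtStatement := H70.ort
  have hINV : InvStatement := H62.inv hRRE hORT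
  have hTCP : TcpStatement := H49.tcp hTPE
  have hTNV : TnvStatement := H16.tnv hTBD H53.grd
  have hTCN : TcnStatement := H87.tcn hPRD hTLD hTNV H10.lprF
  have hKMO' : KmoStatement := hKMO hPRD hTPE hTLD hTNV hTCN H91.sqm hLIN
  have hKLA : KlaStatement := H44.kla hKMO' hTPE hTNV
  have hTOU : TouStatement := H60.tou hRRE hINV hTCP hTCN hKLA
  have hHCP : HcpStatement := H77.hcp H6.hfs
  have hHTK : HtkStatement := Pool.Agent.Helper92_THS.htk hHCP (H49.lar hORT) (H25.lna hORT) H41.prb
  have hHXK : HxkStatement := H41.hxk hHCP hORT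
  have hHTZ : HtzStatement := H49.htz hHCP
  have hHXB : HxbStatement := H49.hxb hHTK hHXK hHTZ
  have hPIG : PigStatement := H62.pig hHXB (H27.npp H49.nuf)
  have hRED : RedStatement := H41.red H16.pce H91.pct (H44.foi hORT)
  have hRQI : RqiStatement := H62.rqi hORT
  have hTHD : ThdStatement := H44.thd hTOU (H33.sca hRQI) (H21.pxv hRQI) H94.spe (H65.nsd hRQI)
  exact asm hALG hTHD hRED hHTZ hPIG H42.prp

end Pool.Agent.THS.H89
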