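import Pool.Agent.THS.StmtsZ

/-!
# MP_160b6c_nt: torsion and the Szpiro ratio of the places of toric type, every dimension
-/

namespace Pool.Agent.Results.MP_160b6c_nt.ToricTorsion

open scoped BigOperators

/-- The theta series with half-integral characteristic `theta[a/2, b/2](z, tau)`, `a, b` in
`(Z/2)^g` (represented by 0, 1):
the sum over `n` in `Z^g` of `exp(pi i (n+a/2).tau(n+a/2) + 2 pi i (n+a/2).(z+b/2))`. -/
noncomputable def theta {g : ℕ} (τ : Matrix (Fin g) (Fin g) ℂ) (a b : Fin g → ZMod 2)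
    (z : Fin g → ℂ) : ℂ :=
  ∑' n : Fin g → ℤ, Complex.exp
    (Real.pi * Complex.I *
        (∑ i, ∑ j, ((n i : ℂ) + (a i).val / 2) * τ i j * ((n j : ℂ) + (a j).val / 2)) +
      2 * Real.pi * Complex.I * ∑ i, ((n i : ℂ) + (a i).val / 2) * (z i + (b i).val / 2))

/-- `tau` is in the Siegel upper half space: symmetric, with positive definite imaginary part. -/
def Siegel {g : ℕ} (τ : Matrix (Fin g) (Fin g) ℂ) : Prop :=
  τ.transpose = τ ∧ (τ.map Complex.im).PosDef

/-- `w` lies in the period lattice `Z^g + tau Z^g`. -/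
def InLattice {g : ℕ} (τ : Matrix (Fin g) (Fin g) ℂ) (w : Fin g → ℂ) : Prop :=
  ∃ p q : Fin g → ℤ, ∀ i, w i = (p i : ℂ) + ∑ j, τ i j * (q j : ℂ)

/-- The points of projective space with coordinates `x` and `y` have the same reduction modulo
the finite place `v`: all `2 x 2` minors are smaller than `|x|_v |y|_v` (maximum norms). -/
def SameReduction {K ι : Type} [Field K] [NumberField K] (v : NumberField.FinitePlace K)
    (x y : ι → K) : Prop :=
  ∀ i j, v (x i * y j - x j * y i) < (⨆ l, v (x l)) * (⨆ l, v (y l))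

open Pool.Agent.THS in
theorem theta_eq {g : ℕ} (τ : Matrix (Fin g) (Fin g) ℂ) (a b : Fin g → ZMod 2)
    (x : Fin g → ℂ) (k : ℤ) :
    Vab τ a b (fun i => (k : ℂ) * x i) = theta τ a b (fun i => 2 * (k : ℂ) * x i) := by
  unfold Vab theta ths tht hv
  refine tsum_congr fun n => ?_
  congr 1
  have h1 : ∀ i, (((a i).val : ℝ) / 2 : ℝ) = ((a i).val : ℝ) / 2 := fun _ => rfl
  congr 1
  · congr 1
    refine Finset.sum_congr rfl fun i _ => Finset.sum_congr rfl fun j _ => ?_
    push_cast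
    rfl
  · congr 1
    refine Finset.sum_congr rfl fun i _ => ?_
    push_cast
    ring

/-- **Torsion and the Szpiro ratio of the places of toric type.** -/
theorem result (hths : Pool.Agent.THS.ThsStatement) (g d c : ℕ) (σ : ℝ) (hc : 0 < c) : ∃ B : ℕ,
    ∀ (K : Type) [Field K] [NumberField K], Module.finrank ℚ K ≤ d →
    ∀ (φ : K →+* ℂ) (τ : Matrix (Fin g) (Fin g) ℂ), Siegel τ →
    -- a torsion point `z` of the abelian variety `C^g / (Z^g + tau Z^g)`
    ∀ z : Fin g → ℂ, (∃ N : ℕ, 0 < N ∧ InLattice τ (fun i => (N : ℂ) * z i)) →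
    -- the points `k z`, in the projective embedding by `theta[a/2, b/2](2 z)`, are `K`-rational
    ∀ x : ℤ → (Fin g → ZMod 2) × (Fin g → ZMod 2) → K, (∀ k, x k ≠ 0) →
    (∀ k, ∃ μ : ℂ, ∀ ab, φ (x k ab) = μ * theta τ ab.1 ab.2 (fun i => 2 * (k : ℂ) * z i)) →
    -- places where all multiples of `c z` reduce to the same point as 0
    ∀ S : Finset (NumberField.FinitePlace K),
    (∀ v ∈ S, v 2 = 1 ∧ ∀ k : ℤ, SameReduction v (x (c * k)) (x 0)) →
    -- the height of 0 is bounded by the norms of these places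
    Real.log (Height.mulHeight (x 0)) ≤
      σ * ∑ v ∈ S, Real.log (Ideal.absNorm v.maximalIdeal.asIdeal) →
    -- the order of `z` is at most `B`
    ∃ M : ℕ, 1 ≤ M ∧ M ≤ B ∧ InLattice τ (fun i => (M : ℂ) * z i) := by
  obtain ⟨B, hB⟩ := hths g d c σ hc
  refine ⟨B, ?_⟩
  intro K _ _ hd φ τ hτ z hz x hx hμ S hS hH
  refine hB K hd φ τ hτ z hz x hx ?_ S (fun v hv => (hS v hv).1) (fun v hv k => ?_) hH
  · intro k
    obtain ⟨μ, h⟩ := hμ k
    exact ⟨μ, fun ab => by rw [theta_eq]; exact h ab⟩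
  · exact (hS v hv).2 k

end Pool.Agent.Results.MP_160b6c_nt.ToricTorsion
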